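import Mathlib

namespace Pool.Agent.Results.MP_aba9fe_co.Spectator

open Finset

/-- A loopless multigraph on the vertex set `Fin (n+1)`: `μ a b` is the number of edges
joining `a` and `b`; those edges are labelled `0, …, μ a b - 1`. -/
structure MG (n : ℕ) where
  μ : Fin (n + 1) → Fin (n + 1) → ℕ
  symm : ∀ a b, μ a b = μ b a
  loopless : ∀ a, μ a a = 0

/-- A path with `k` edges (order `k+1`): distinct vertices `f 0, …, f k`, the `j`-th edge being
the edge with label `e j` between `f j` and `f (j+1)`. -/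
def IsPath {n : ℕ} (G : MG n) (k : ℕ) (f : ℕ → Fin (n + 1)) (e : ℕ → ℕ) : Prop :=
  (∀ i ≤ k, ∀ j ≤ k, f i = f j → i = j) ∧ ∀ j < k, e j < G.μ (f j) (f (j + 1))

/-- Unique shortest path. -/
def IsUSP {n : ℕ} (G : MG n) (k : ℕ) (f : ℕ → Fin (n + 1)) (e : ℕ → ℕ) : Prop :=
  IsPath G k f e ∧ ∀ k' f' e', IsPath G k' f' e' → f' 0 = f 0 → f' k' = f k →
    k ≤ k' ∧ (k' = k → (∀ j ≤ k, f' j = f j) ∧ ∀ j < k, e' j = e j)

/-- Parade number: largest order of a unique shortest path. -/
noncomputable def usp {n : ℕ} (G : MG n) : ℕ := sSup {m | ∃ k f e, IsUSP G k f e ∧ m = k + 1}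

/-- Spectator number. -/
noncomputable def sp {n : ℕ} (G : MG n) : ℕ := (n + 1) - usp G

/-- `Step H G`: up to renaming vertices, `G` arises from `H` by one operation. -/
inductive Step : (Σ n, MG n) → (Σ n, MG n) → Prop
  | rename {m n : ℕ} (H : MG m) (G : MG n) (φ : Fin (n + 1) ≃ Fin (m + 1))
      (h : ∀ a b, G.μ a b = H.μ (φ a) (φ b)) : Step ⟨m, H⟩ ⟨n, G⟩
  | delVertex {m n : ℕ} (H : MG m) (G : MG n) (v : Fin (m + 1)) (hv : ∀ w, H.μ v w = 0)
      (φ : Fin (n + 1) → Fin (m + 1)) (hφ : Function.Injective φ)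
      (hr : ∀ w, w ∈ Set.range φ ↔ w ≠ v)
      (h : ∀ a b, G.μ a b = H.μ (φ a) (φ b)) : Step ⟨m, H⟩ ⟨n, G⟩
  | delEdge {n : ℕ} (H G : MG n) (x y : Fin (n + 1))
      (h : ∀ a b, H.μ a b = G.μ a b + if (a = x ∧ b = y) ∨ (a = y ∧ b = x) then 1 else 0) :
      Step ⟨n, H⟩ ⟨n, G⟩
  | contract {m n : ℕ} (H : MG m) (G : MG n) (x y : Fin (m + 1)) (hxy : H.μ x y = 1)
      (π : Fin (m + 1) → Fin (n + 1)) (hπ : Function.Surjective π)
      (hk : ∀ a b, π a = π b ↔ a = b ∨ (a = x ∧ b = y) ∨ (a = y ∧ b = x))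
      (h : ∀ c d, c ≠ d → G.μ c d =
        ∑ q ∈ univ.filter (fun q : Fin (m + 1) × Fin (m + 1) => π q.1 = c ∧ π q.2 = d),
          H.μ q.1 q.2) : Step ⟨m, H⟩ ⟨n, G⟩

/-- `G` is a minor of `H`. -/
def IsMinor (G H : Σ n, MG n) : Prop := Relation.ReflTransGen Step H G

/-- Spectator floor. -/
noncomputable def sf {n : ℕ} (G : MG n) : ℕ :=
  sInf {s | ∃ H : Σ m, MG m, IsMinor ⟨n, G⟩ H ∧ s = sp H.2}

def Con {n : ℕ} (L : ℕ) (p : ℕ → Fin (n + 1)) (a b : Fin (n + 1)) : Prop :=
  ∃ j < L, (a = p j ∧ b = p (j + 1)) ∨ (b = p j ∧ a = p (j + 1))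

def CertD {n : ℕ} (G : MG n) (L : ℕ) (p : ℕ → Fin (n + 1)) (h : Fin (n + 1) → ℝ) : Prop :=
  (∀ j ≤ L, h (p j) = j) ∧ ∀ a b, 0 < G.μ a b → |h a - h b| < 1 ∨ (G.μ a b = 1 ∧ Con L p a b)

def Cert {n : ℕ} (G : MG n) (L : ℕ) : Prop := ∃ p h, CertD G L p h

lemma Con.symm {n L : ℕ} {p : ℕ → Fin (n + 1)} {a b} (h : Con L p a b) : Con L p b a := by
  obtain ⟨j, hj, h⟩ := h
  exact ⟨j, hj, h.symm⟩

lemma Con.diff {n L : ℕ} {p : ℕ → Fin (n + 1)} {h : Fin (n + 1) → ℝ}
    (hp : ∀ j ≤ L, h (p j) = j) {a b} (hc : Con L p a b) : h a - h b = 1 ∨ h a - h b = -1 := by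
  obtain ⟨j, hj, ⟨rfl, rfl⟩ | ⟨rfl, rfl⟩⟩ := hc
  · right; rw [hp j hj.le, hp (j + 1) hj]; push_cast; ring
  · left; rw [hp j hj.le, hp (j + 1) hj]; push_cast; ring

lemma path_le {n : ℕ} {G : MG n} {k f e} (h : IsPath G k f e) : k ≤ n := by
  have := Finset.card_le_card_of_injOn (s := range (k + 1)) (t := (univ : Finset (Fin (n + 1)))) f
    (fun _ _ => by simp) (fun i hi j hj hij => h.1 i (by simp at hi; omega) j (by simp at hj; omega) hij)
  simp at this; omega

lemma usp_zero {n : ℕ} (G : MG n) : IsUSP G 0 (fun _ => 0) (fun _ => 0) := by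
  refine ⟨⟨fun i hi j hj _ => by omega, fun j hj => by omega⟩, ?_⟩
  intro k' f' e' _ h0 _
  refine ⟨Nat.zero_le _, fun _ => ⟨fun j hj => ?_, fun j hj => by omega⟩⟩
  obtain rfl : j = 0 := by omega
  exact h0

lemma usp_mem {n : ℕ} (G : MG n) : ∃ k f e, IsUSP G k f e ∧ usp G = k + 1 := by
  have := Nat.sSup_mem (s := {m | ∃ k f e, IsUSP G k f e ∧ m = k + 1})
    ⟨1, 0, _, _, usp_zero G, rfl⟩
    ⟨n + 1, by rintro m ⟨k, f, e, h, rfl⟩; have := path_le h.1; omega⟩
  exact this

lemma mult_one {n : ℕ} {G : MG n} {k f e} (h : IsUSP G k f e) {j} (hj : j < k) :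
    G.μ (f j) (f (j + 1)) = 1 := by
  by_contra hne
  have h1 := h.1.2 j hj
  have h2 : IsPath G k f (fun t => if t = j then (if e j = 0 then 1 else 0) else e t) := by
    refine ⟨h.1.1, fun t ht => ?_⟩
    by_cases htj : t = j
    · subst htj; simp only [if_true]; split_ifs <;> omega
    · simp only [if_neg htj]; exact h.1.2 t ht
  have h3 := ((h.2 k f _ h2 rfl rfl).2 rfl).2 j hj
  simp only [if_true] at h3
  split_ifs at h3 <;> omega

lemma walk_eq {n : ℕ} {G : MG n} {L p e} (h : IsUSP G L p e) : ∀ k, k ≤ L → ∀ f : ℕ → Fin (n + 1),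
    (∀ j < k, 0 < G.μ (f j) (f (j + 1))) → f 0 = p 0 → f k = p L →
    k = L ∧ ∀ j ≤ L, f j = p j := by
  intro k
  induction k using Nat.strong_induction_on with
  | _ k ih =>
    intro hk f hw h0 h1
    by_cases hinj : ∀ i ≤ k, ∀ j ≤ k, f i = f j → i = j
    · have := h.2 k f (fun _ => 0) ⟨hinj, hw⟩ h0 h1
      have hkL : k = L := by omega
      exact ⟨hkL, (this.2 hkL).1⟩
    · exfalso
      push Not at hinj
      obtain ⟨i, hi, j, hj, hij, hne⟩ := hinj
      wlog hlt : i < j generalizing i j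
      · exact this j hj i hi hij.symm (Ne.symm hne) (by omega)
      have := ih (k - (j - i)) (by omega) (by omega)
        (fun t => if t ≤ i then f t else f (t + (j - i))) ?_ (by simp [h0]) ?_
      · omega
      · intro t ht
        by_cases h2 : t + 1 ≤ i
        · simp only [if_pos h2, if_pos (show t ≤ i by omega)]; exact hw t (by omega)
        · by_cases h3 : t ≤ i
          · obtain rfl : t = i := by omega
            simp only [if_neg h2, if_pos h3]
            rw [hij, show t + 1 + (j - t) = j + 1 by omega]; exact hw j (by omega)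
          · simp only [if_neg h2, if_neg h3]
            rw [show t + 1 + (j - i) = t + (j - i) + 1 by omega]; exact hw _ (by omega)
      · by_cases h2 : k - (j - i) ≤ i
        · simp only [if_pos h2]
          rw [show k - (j - i) = i by omega, hij, show j = k by omega, h1]
        · simp only [if_neg h2]
          rw [show k - (j - i) + (j - i) = k by omega, h1]

lemma cert_of_usp {n : ℕ} {G : MG n} {L p e} (h : IsUSP G L p e) : Cert G L := by
  let S : Fin (n + 1) → Set ℕ := fun v => {x | x = (L + 1) * L ∨ ∃ i ≤ L, ∃ m, ∃ w : ℕ → Fin (n + 1),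
    w 0 = p i ∧ w m = v ∧ (∀ t < m, 0 < G.μ (w t) (w (t + 1)) ∧ ¬ Con L p (w t) (w (t + 1))) ∧
    x = (L + 1) * i + L * m}
  have hne : ∀ v, (S v).Nonempty := fun v => ⟨_, Or.inl rfl⟩
  have hL : (0 : ℝ) < L + 1 := by positivity
  have hlip : ∀ a b, 0 < G.μ a b → ¬ Con L p a b → sInf (S b) ≤ sInf (S a) + L := by
    intro a b hab hc
    rcases Nat.sInf_mem (hne a) with h1 | ⟨i, hi, m, w, h0, hm, hw, hx⟩
    · have : sInf (S b) ≤ (L + 1) * L := Nat.sInf_le (Or.inl rfl)
      omega
    · refine Nat.sInf_le (Or.inr ⟨i, hi, m + 1, fun t => if t ≤ m then w t else b, by simp [h0],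
        by simp, ?_, by rw [hx]; ring⟩)
      intro t ht
      by_cases h2 : t + 1 ≤ m
      · simp only [if_pos h2, if_pos (show t ≤ m by omega)]; exact hw t (by omega)
      · obtain rfl : t = m := by omega
        simp only [if_neg h2, le_refl, if_true, hm]; exact ⟨hab, hc⟩
  refine ⟨p, fun v => ((sInf (S v) : ℕ) : ℝ) / (L + 1), fun j hj => ?_, fun a b hab => ?_⟩
  · have : sInf (S (p j)) = (L + 1) * j := by
      apply le_antisymm
      · exact Nat.sInf_le (Or.inr ⟨j, hj, 0, fun _ => p j, rfl, rfl, fun t ht => by omega, by ring⟩)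
      · rcases Nat.sInf_mem (hne (p j)) with h1 | ⟨i, hi, m, w, h0, hm, hw, hx⟩
        · rw [h1]; exact Nat.mul_le_mul_left _ hj
        · rw [hx]
          by_cases hij : j ≤ i
          · have := Nat.mul_le_mul_left (L + 1) hij; omega
          · have key : j - i + 1 ≤ m := by
              by_contra hm'
              have hp : ∀ t < L, 0 < G.μ (p t) (p (t + 1)) := fun t ht => by
                rw [mult_one h ht]; exact Nat.one_pos
              have hm0 : m ≠ 0 := by
                rintro rfl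
                have := h.1.1 i hi j hj (by rw [← h0, hm]); omega
              have := walk_eq h (L - (j - i - m)) (by omega)
                (fun t => if t ≤ i then p t else if t ≤ i + m then w (t - i) else p (t + (j - i - m)))
                ?_ (by simp) ?_
              · obtain ⟨h5, h6⟩ := this
                have h7 := h6 (i + 1) (by omega)
                simp only [if_neg (show ¬ i + 1 ≤ i by omega), if_pos (show i + 1 ≤ i + m by omega),
                  show i + 1 - i = 1 by omega] at h7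
                exact (hw 0 (by omega)).2 ⟨i, by omega, Or.inl ⟨h0, h7⟩⟩
              · intro t ht
                by_cases h2 : t + 1 ≤ i
                · simp only [if_pos h2, if_pos (show t ≤ i by omega)]; exact hp t (by omega)
                · by_cases h3 : t ≤ i
                  · obtain rfl : t = i := by omega
                    simp only [if_neg h2, if_pos h3, if_pos (show t + 1 ≤ t + m by omega),
                      show t + 1 - t = 0 + 1 by omega]
                    rw [← h0]; exact (hw 0 (by omega)).1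
                  · by_cases h4 : t + 1 ≤ i + m
                    · simp only [if_neg h2, if_neg h3, if_pos h4, if_pos (show t ≤ i + m by omega)]
                      rw [show t + 1 - i = t - i + 1 by omega]; exact (hw _ (by omega)).1
                    · by_cases h8 : t ≤ i + m
                      · simp only [if_neg h2, if_neg h3, if_neg h4, if_pos h8]
                        rw [show t - i = m by omega, hm, show t + 1 + (j - i - m) = j + 1 by omega]
                        exact hp j (by omega)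
                      · simp only [if_neg h2, if_neg h3, if_neg h4, if_neg h8]
                        rw [show t + 1 + (j - i - m) = t + (j - i - m) + 1 by omega]
                        exact hp _ (by omega)
              · simp only [if_neg (show ¬ L - (j - i - m) ≤ i by omega)]
                by_cases h8 : L - (j - i - m) ≤ i + m
                · simp only [if_pos h8]
                  rw [show L - (j - i - m) - i = m by omega, hm, show j = L by omega]
                · simp only [if_neg h8]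
                  rw [show L - (j - i - m) + (j - i - m) = L by omega]
            obtain ⟨d, rfl⟩ : ∃ d, j = i + d := ⟨j - i, by omega⟩
            have h9 : L * (d + 1) ≤ L * m := Nat.mul_le_mul_left _ (by omega)
            nlinarith
    show ((sInf (S (p j)) : ℕ) : ℝ) / (L + 1) = j
    rw [this]; push_cast; field_simp
  · by_cases hc : Con L p a b
    · right
      refine ⟨?_, hc⟩
      obtain ⟨j, hj, ⟨rfl, rfl⟩ | ⟨rfl, rfl⟩⟩ := hc
      · exact mult_one h hj
      · rw [G.symm]; exact mult_one h hj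
    · left
      have h1 := hlip a b hab hc
      have h2 := hlip b a (by rw [G.symm]; exact hab) (fun h => hc h.symm)
      have h1' : ((sInf (S b) : ℕ) : ℝ) ≤ ((sInf (S a) : ℕ) : ℝ) + L := by exact_mod_cast h1
      have h2' : ((sInf (S a) : ℕ) : ℝ) ≤ ((sInf (S b) : ℕ) : ℝ) + L := by exact_mod_cast h2
      show |((sInf (S a) : ℕ) : ℝ) / (L + 1) - ((sInf (S b) : ℕ) : ℝ) / (L + 1)| < 1
      rw [← sub_div, abs_div, abs_of_pos hL, div_lt_one hL, abs_lt]
      constructor <;> linarith

noncomputable def T (c t : ℝ) : ℝ := max (min t c) (t - 1)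

lemma T_lip (c s t : ℝ) (h : |s - t| < 1) : |T c s - T c t| < 1 := by
  rw [abs_lt] at h ⊢
  unfold T
  simp only [max_def, min_def]
  split_ifs <;> constructor <;> linarith [h.1, h.2]

noncomputable def sk {V : Type} (c : ℝ) (p : ℕ → V) (j : ℕ) : V :=
  if (j : ℝ) ≤ c then p j else p (j + 1)

lemma skip1 {V : Type} {L : ℕ} {p : ℕ → V} {h : V → ℝ} (hp : ∀ j ≤ L + 1, h (p j) = j) (c : ℝ) :
    ∀ j ≤ L, T c (h (sk c p j)) = j := by
  intro j hj
  unfold sk T
  split_ifs with h1
  · rw [hp j (by omega), min_eq_left h1, max_eq_left (by linarith)]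
  · rw [hp (j + 1) (by omega)]; push_cast
    push Not at h1
    rw [min_eq_right (by linarith), max_eq_right (by linarith)]; ring

lemma skip2 {V : Type} {L : ℕ} (p : ℕ → V) (c : ℝ) (h0 : -1 < c) (h1 : c < L + 1) (i : ℕ)
    (hi : i < L + 1) : |T c i - T c (i + 1)| < 1 ∨
      ∃ j < L, sk c p (j + 1) = p (i + 1) ∧ (sk c p j = p i ∨ ((j : ℝ) = c ∧ i = j + 1)) := by
  by_cases h2 : (i : ℝ) + 1 ≤ c
  · right
    refine ⟨i, ?_, ?_, Or.inl ?_⟩
    · have : (i : ℝ) < L := by linarith
      exact_mod_cast this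
    · unfold sk; rw [if_pos (by push_cast; linarith)]
    · unfold sk; rw [if_pos (by linarith)]
  · by_cases h3 : c + 1 ≤ i
    · right
      have hi0 : i ≠ 0 := by rintro rfl; simp at h3; linarith
      obtain ⟨j, rfl⟩ : ∃ j, i = j + 1 := ⟨i - 1, by omega⟩
      push_cast at h3 h2
      refine ⟨j, by omega, ?_, ?_⟩
      · unfold sk; rw [if_neg (by push_cast; linarith)]
      · by_cases h4 : (j : ℝ) = c
        · exact Or.inr ⟨h4, rfl⟩
        · left; unfold sk; rw [if_neg (fun h5 => h4 (by linarith))]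
    · left
      push Not at h2 h3
      rw [abs_lt]; unfold T
      simp only [max_def, min_def]
      split_ifs <;> constructor <;> linarith

lemma half_ne (j k : ℕ) : (j : ℝ) ≠ k - 1 / 2 := by
  intro h
  have : (2 * j + 1 : ℝ) = 2 * k := by linarith
  have : 2 * j + 1 = 2 * k := by exact_mod_cast this
  omega

lemma certD_skip {n L : ℕ} {G : MG n} {p h} (hc : CertD G (L + 1) p h) (k : ℕ) (hk : k ≤ L + 1) :
    CertD G L (sk (k - 1 / 2) p) (fun v => T (k - 1 / 2) (h v)) := by
  refine ⟨skip1 hc.1 _, fun a b hab => ?_⟩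
  have hk' : (k : ℝ) ≤ L + 1 := by exact_mod_cast hk
  have hk0 : (0 : ℝ) ≤ k := by positivity
  rcases hc.2 a b hab with h1 | ⟨h1, i, hi, h2⟩
  · exact Or.inl (T_lip _ _ _ h1)
  · rcases skip2 p ((k : ℝ) - 1 / 2) (by linarith) (by linarith) i hi with h3 | ⟨j, hj, h3, h4 | h4⟩
    · left
      rcases h2 with ⟨rfl, rfl⟩ | ⟨rfl, rfl⟩
      · simp only [hc.1 i hi.le, hc.1 (i + 1) hi]; push_cast; exact h3
      · simp only [hc.1 i hi.le, hc.1 (i + 1) hi]; push_cast; rw [abs_sub_comm]; exact h3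
    · exact Or.inr ⟨h1, j, hj, by rw [h3, h4]; exact h2⟩
    · exact absurd h4.1 (half_ne _ _)

lemma cert_zero {n : ℕ} (G : MG n) : Cert G 0 :=
  ⟨fun _ => 0, fun _ => 0, fun j hj => by simp [show j = 0 by omega], fun a b _ => Or.inl (by simp)⟩

lemma cert_mono {n : ℕ} {G : MG n} {L L' : ℕ} (h : Cert G L) (hl : L' ≤ L) : Cert G L' := by
  induction L with
  | zero => obtain rfl : L' = 0 := by omega
            exact h
  | succ L ih =>
    by_cases h1 : L' = L + 1
    · rw [h1]; exact h
    · obtain ⟨p, g, hc⟩ := h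
      exact ih ⟨_, _, certD_skip hc 0 (by omega)⟩ (by omega)

lemma cert_pull {m n L : ℕ} {H : MG m} {G : MG n} {p h} (hc : CertD H L p h)
    (φ : Fin (n + 1) → Fin (m + 1)) (hφ : Function.Injective φ)
    (hr : ∀ j ≤ L, p j ∈ Set.range φ) (hle : ∀ a b, G.μ a b ≤ H.μ (φ a) (φ b)) : Cert G L := by
  classical
  let q : ℕ → Fin (n + 1) := fun j => Function.invFun φ (p j)
  have hq : ∀ j ≤ L, φ (q j) = p j := fun j hj => Function.invFun_eq (hr j hj)
  refine ⟨q, fun v => h (φ v), fun j hj => by simp only [hq j hj, hc.1 j hj], fun a b hab => ?_⟩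
  have h0 := hle a b
  rcases hc.2 (φ a) (φ b) (by omega) with h1 | ⟨h1, i, hi, h2⟩
  · exact Or.inl h1
  · refine Or.inr ⟨by omega, i, hi, ?_⟩
    rw [← hq i hi.le, ← hq (i + 1) hi] at h2
    rcases h2 with ⟨h3, h4⟩ | ⟨h3, h4⟩
    · exact Or.inl ⟨hφ h3, hφ h4⟩
    · exact Or.inr ⟨hφ h3, hφ h4⟩

lemma certD_clamp {n L : ℕ} {G : MG n} {p h} (hc : CertD G L p h) :
    CertD G L p (fun v => max 0 (min (L : ℝ) (h v))) := by
  refine ⟨fun j hj => ?_, fun a b hab => ?_⟩
  · have h1 : (j : ℝ) ≤ L := by exact_mod_cast hj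
    have h2 : (0 : ℝ) ≤ j := by positivity
    simp only [hc.1 j hj, min_eq_right h1, max_eq_right h2]
  · rcases hc.2 a b hab with h1 | h1
    · left
      rw [abs_lt] at h1 ⊢
      simp only [max_def, min_def]
      split_ifs <;> constructor <;> linarith [h1.1, h1.2]
    · exact Or.inr h1

lemma exists_c (L : ℕ) (s t : ℝ) (hs0 : 0 ≤ s) (ht0 : 0 ≤ t) (hs : s ≤ L + 1) (ht : t ≤ L + 1)
    (hst : |s - t| < 1) : ∃ c : ℝ, -1 < c ∧ c < L + 1 ∧ c ≤ s ∧ c ≤ t ∧ s ≤ c + 1 ∧ t ≤ c + 1 ∧
      ∀ j : ℕ, (j : ℝ) ≠ c := by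
  rw [abs_lt] at hst
  have hlt : max s t - 1 < min s t := by
    simp only [max_def, min_def]; split_ifs <;> linarith [hst.1, hst.2]
  obtain ⟨c, hirr, h1, h2⟩ := exists_irrational_btwn hlt
  have h3 := le_max_left s t
  have h4 := le_max_right s t
  have h5 := min_le_left s t
  have h6 := min_le_right s t
  exact ⟨c, by linarith, by linarith, by linarith, by linarith, by linarith, by linarith,
    fun j hj => hirr.ne_nat j hj.symm⟩

lemma cert_contract {m n L : ℕ} {H : MG m} {G : MG n} (x y : Fin (m + 1)) (hxy : H.μ x y = 1)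
    (π : Fin (m + 1) → Fin (n + 1)) (hπ : Function.Surjective π)
    (hk : ∀ a b, π a = π b ↔ a = b ∨ (a = x ∧ b = y) ∨ (a = y ∧ b = x))
    (hμ : ∀ c d, c ≠ d → G.μ c d =
        ∑ q ∈ univ.filter (fun q : Fin (m + 1) × Fin (m + 1) => π q.1 = c ∧ π q.2 = d),
          H.μ q.1 q.2) (hc : Cert H (L + 1)) : Cert G L := by
  classical
  obtain ⟨p, h0, hc0⟩ := hc
  have hc := certD_clamp hc0
  set h : Fin (m + 1) → ℝ := fun v => max 0 (min ((L + 1 : ℕ) : ℝ) (h0 v)) with hh
  have hnn : ∀ v, 0 ≤ h v := fun v => le_max_left _ _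
  have hub : ∀ v, h v ≤ L + 1 := fun v => by
    have : (0 : ℝ) ≤ L + 1 := by positivity
    refine max_le this ((min_le_left _ _).trans (by push_cast; exact le_rfl))
  clear_value h
  obtain ⟨c, c0, c1, cx, cy, cx', cy', hint⟩ : ∃ c : ℝ, -1 < c ∧ c < L + 1 ∧ c ≤ h x ∧ c ≤ h y ∧
      h x ≤ c + 1 ∧ h y ≤ c + 1 ∧ ∀ j : ℕ, (j : ℝ) = c → π (p j) = π (p (j + 1)) := by
    rcases hc.2 x y (by omega) with h1 | ⟨_, i, hi, h2⟩
    · obtain ⟨c, a1, a2, a3, a4, a5, a6, a7⟩ := exists_c L _ _ (hnn x) (hnn y) (hub x) (hub y) h1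
      exact ⟨c, a1, a2, a3, a4, a5, a6, fun j hj => absurd hj (a7 j)⟩
    · have hi0 : (0 : ℝ) ≤ i := by positivity
      have hi1 : (i : ℝ) < L + 1 := by exact_mod_cast hi
      have e1 := hc.1 i hi.le
      have e2 := hc.1 (i + 1) hi
      push_cast at e2
      refine ⟨i, by linarith, hi1, ?_, ?_, ?_, ?_, fun j hj => ?_⟩
      · rcases h2 with ⟨rfl, rfl⟩ | ⟨rfl, rfl⟩ <;> linarith
      · rcases h2 with ⟨rfl, rfl⟩ | ⟨rfl, rfl⟩ <;> linarith
      · rcases h2 with ⟨rfl, rfl⟩ | ⟨rfl, rfl⟩ <;> linarith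
      · rcases h2 with ⟨rfl, rfl⟩ | ⟨rfl, rfl⟩ <;> linarith
      · obtain rfl : j = i := by exact_mod_cast hj
        rw [hk]
        rcases h2 with ⟨h3, h4⟩ | ⟨h3, h4⟩
        · exact Or.inr (Or.inl ⟨h3.symm, h4.symm⟩)
        · exact Or.inr (Or.inr ⟨h3.symm, h4.symm⟩)
  have hT : ∀ t, c ≤ t → t ≤ c + 1 → T c t = c := fun t h1 h2 => by
    unfold T; rw [min_eq_right h1, max_eq_left (by linarith)]
  have hdesc : ∀ a, T c (h (Function.surjInv hπ (π a))) = T c (h a) := by
    intro a
    rcases (hk _ _).1 (Function.surjInv_eq hπ (π a)) with h1 | ⟨h1, h2⟩ | ⟨h1, h2⟩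
    · rw [h1]
    · rw [h1, h2, hT _ cx cx', hT _ cy cy']
    · rw [h1, h2, hT _ cx cx', hT _ cy cy']
  refine ⟨fun j => π (sk c p j), fun v => T c (h (Function.surjInv hπ v)), fun j hj => ?_,
    fun u v huv => ?_⟩
  · simp only [hdesc]; exact skip1 hc.1 c j hj
  have hne : u ≠ v := by rintro rfl; rw [G.loopless] at huv; omega
  by_cases hlt : |T c (h (Function.surjInv hπ u)) - T c (h (Function.surjInv hπ v))| < 1
  · exact Or.inl hlt
  right
  have hall : ∀ a b, π a = u → π b = v → 0 < H.μ a b → H.μ a b = 1 ∧ Con (L + 1) p a b := by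
    intro a b ha hb hab
    rcases hc.2 a b hab with h1 | h1
    · exfalso; apply hlt; rw [← ha, ← hb, hdesc, hdesc]; exact T_lip _ _ _ h1
    · exact h1
  rw [hμ u v hne] at huv
  obtain ⟨⟨a, b⟩, hq, hab⟩ := Finset.exists_ne_zero_of_sum_ne_zero huv.ne'
  simp only [mem_filter, mem_univ, true_and] at hq hab
  obtain ⟨hab1, hcon⟩ := hall a b hq.1 hq.2 (by omega)
  have hxy' : |h x - h y| ≤ 1 := by rw [abs_le]; constructor <;> linarith
  have hxne : ∀ {s t : Fin (m + 1)}, Con (L + 1) p s t → ∃ i ≤ L + 1, s = p i := by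
    rintro s t ⟨i, hi, ⟨h1, _⟩ | ⟨_, h1⟩⟩
    · exact ⟨i, hi.le, h1⟩
    · exact ⟨i + 1, hi, h1⟩
  have huniq : ∀ s s' t, π s = π s' → Con (L + 1) p s t → Con (L + 1) p s' t → s = s' := by
    intro s s' t hs h1 h2
    obtain ⟨i, hi, rfl⟩ := hxne h1
    obtain ⟨i', hi', rfl⟩ := hxne h2
    have d1 := h1.diff hc.1
    have d2 := h2.diff hc.1
    have d3 : |h (p i) - h (p i')| ≤ 1 := by
      rcases (hk _ _).1 hs with h3 | ⟨h3, h4⟩ | ⟨h3, h4⟩
      · rw [h3]; simp
      · rw [h3, h4]; exact hxy'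
      · rw [h3, h4, abs_sub_comm]; exact hxy'
    rw [abs_le] at d3
    have d4 : h (p i) = h (p i') := by
      rcases d1 with d1 | d1 <;> rcases d2 with d2 | d2 <;> linarith [d3.1, d3.2]
    rw [hc.1 i hi, hc.1 i' hi'] at d4
    have : i = i' := by exact_mod_cast d4
    rw [this]
  constructor
  · rw [hμ u v hne, Finset.sum_eq_single (a, b)]
    · exact hab1
    · rintro ⟨a', b'⟩ hq' hne'
      simp only [mem_filter, mem_univ, true_and] at hq'
      by_contra h5
      obtain ⟨_, hcon'⟩ := hall a' b' hq'.1 hq'.2 (Nat.pos_of_ne_zero h5)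
      have e1 : π a' = π a := by rw [hq'.1, hq.1]
      have e2 : π b' = π b := by rw [hq'.2, hq.2]
      have huv' : π a ≠ π b := by rw [hq.1, hq.2]; exact hne
      have hxyπ : π x = π y := (hk _ _).2 (Or.inr (Or.inl ⟨rfl, rfl⟩))
      by_cases hb : b' = b
      · subst hb
        exact hne' (by rw [huniq a' a b' e1 hcon' hcon])
      · by_cases ha : a' = a
        · subst ha
          exact hb (huniq b' b a' e2 hcon'.symm hcon.symm)
        · apply huv'
          rcases (hk _ _).1 e1 with h3 | ⟨_, h3⟩ | ⟨_, h3⟩ <;>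
            rcases (hk _ _).1 e2 with h4 | ⟨_, h4⟩ | ⟨_, h4⟩ <;>
            first | exact absurd h3 ha | exact absurd h4 hb | simp only [h3, h4, hxyπ]
    · intro h5; exact absurd (by simp [hq]) h5
  · obtain ⟨i, hi, h2⟩ := hcon
    have e1 := hc.1 i hi.le
    have e2 := hc.1 (i + 1) hi
    push_cast at e2
    rcases skip2 p c c0 c1 i hi with h3 | ⟨j, hj, h3, h4⟩
    · exfalso; apply hlt; rw [← hq.1, ← hq.2, hdesc, hdesc]
      rcases h2 with ⟨rfl, rfl⟩ | ⟨rfl, rfl⟩
      · rw [e1, e2]; exact h3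
      · rw [e1, e2, abs_sub_comm]; exact h3
    · have h5 : π (sk c p j) = π (p i) := by
        rcases h4 with h4 | ⟨h4, rfl⟩
        · rw [h4]
        · unfold sk; rw [if_pos h4.le]; exact hint j h4
      refine ⟨j, hj, ?_⟩
      simp only [h3, h5]
      rcases h2 with ⟨rfl, rfl⟩ | ⟨rfl, rfl⟩
      · exact Or.inl ⟨hq.1.symm, hq.2.symm⟩
      · exact Or.inr ⟨hq.2.symm, hq.1.symm⟩

def Inv (s : ℕ) (G : Σ n, MG n) : Prop := ∃ L, Cert G.2 L ∧ G.1 ≤ L + s

lemma inv_step {s : ℕ} {H G : Σ n, MG n} (hs : Step H G) (hi : Inv s H) : Inv s G := by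
  obtain ⟨L, hc, hl⟩ := hi
  cases hs with
  | rename H G φ h =>
    obtain ⟨p, g, hc⟩ := hc
    have := Fintype.card_congr φ
    simp only [Fintype.card_fin] at this hl
    exact ⟨L, cert_pull hc φ φ.injective (fun j _ => φ.surjective _) (fun a b => (h a b).le),
      by simp only; omega⟩
  | delVertex H G v hv φ hφ hr h =>
    have := Fintype.card_lt_of_injective_not_surjective φ hφ
      (fun hsj => (hr v).1 (hsj v) rfl)
    simp only [Fintype.card_fin] at this hl
    cases L with
    | zero => exact ⟨0, cert_zero G, by simp only; omega⟩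
    | succ L =>
      obtain ⟨p, g, hc⟩ := hc
      refine ⟨L, ?_, by simp only; omega⟩
      by_cases hp : ∃ k ≤ L + 1, p k = v
      · obtain ⟨k, hk, hkv⟩ := hp
        refine cert_pull (certD_skip hc k hk) φ hφ (fun j hj => (hr _).2 ?_) (fun a b => (h a b).le)
        intro h1
        have h2 := hc.1 k hk
        rw [hkv, ← h1] at h2
        unfold sk at h2
        split_ifs at h2 with h3
        · rw [hc.1 j (by omega)] at h2; linarith
        · rw [hc.1 (j + 1) (by omega)] at h2; push_cast at h2; apply h3; linarith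
      · refine cert_pull (certD_skip hc 0 (by omega)) φ hφ (fun j hj => (hr _).2 ?_)
          (fun a b => (h a b).le)
        intro h1
        unfold sk at h1
        split_ifs at h1
        · exact hp ⟨j, by omega, h1⟩
        · exact hp ⟨j + 1, by omega, h1⟩
  | delEdge H G x y h =>
    obtain ⟨p, g, hc⟩ := hc
    exact ⟨L, cert_pull hc id Function.injective_id (fun j _ => ⟨_, rfl⟩)
      (fun a b => by simp only [id]; rw [h a b]; omega), hl⟩
  | contract H G x y hxy π hπ hk h =>
    have := Fintype.card_lt_of_surjective_not_injective π hπ (fun hinj => by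
      have h1 : x = y := hinj ((hk _ _).2 (Or.inr (Or.inl ⟨rfl, rfl⟩)))
      rw [h1, H.loopless] at hxy; omega)
    simp only [Fintype.card_fin] at this hl
    cases L with
    | zero => exact ⟨0, cert_zero G, by simp only; omega⟩
    | succ L => exact ⟨L, cert_contract x y hxy π hπ hk h hc, by simp only; omega⟩

lemma super_of_cert {n L : ℕ} {G : MG n} (hc : Cert G L) :
    ∃ F : MG n, (∀ a b, G.μ a b ≤ F.μ a b) ∧ usp F = L + 1 := by
  classical
  obtain ⟨p, h, hc⟩ := hc
  let F : MG n := ⟨fun a b => if Con L p a b then 1 else 2 * G.μ a b, fun a b => by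
      by_cases h1 : Con L p a b
      · simp only [if_pos h1, if_pos h1.symm]
      · simp only [if_neg h1, if_neg (fun h2 : Con L p b a => h1 h2.symm), G.symm a b],
    fun a => by
      have : ¬ Con L p a a := fun h1 => by
        rcases h1.diff hc.1 with h2 | h2 <;> simp at h2
      simp only [if_neg this, G.loopless]⟩
  have hF : ∀ a b, F.μ a b = if Con L p a b then 1 else 2 * G.μ a b := fun _ _ => rfl
  have hE : ∀ a b, 0 < F.μ a b → |h a - h b| < 1 ∨ Con L p a b := by
    intro a b hab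
    by_cases h1 : Con L p a b
    · exact Or.inr h1
    · rw [hF, if_neg h1] at hab
      rcases hc.2 a b (by omega) with h2 | h2
      · exact Or.inl h2
      · exact Or.inr h2.2
  have hpinj : ∀ i ≤ L, ∀ j ≤ L, p i = p j → i = j := fun i hi j hj hij => by
    have := hc.1 i hi
    rw [hij, hc.1 j hj] at this
    exact_mod_cast this.symm
  have hpe : ∀ j < L, F.μ (p j) (p (j + 1)) = 1 := fun j hj => by
    rw [hF, if_pos ⟨j, hj, Or.inl ⟨rfl, rfl⟩⟩]
  refine ⟨F, fun a b => ?_, IsGreatest.csSup_eq ⟨⟨L, p, fun _ => 0, ⟨⟨hpinj, fun j hj => ?_⟩, ?_⟩, rfl⟩, ?_⟩⟩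
  · rw [hF]; split_ifs with h1
    · by_contra h2
      rcases hc.2 a b (by omega) with h3 | h3
      · rcases h1.diff hc.1 with h4 | h4 <;> rw [h4] at h3 <;> simp at h3
      · omega
    · omega
  · rw [hpe j hj]; exact Nat.one_pos
  · intro k f e hf h0 h1
    have hstep : ∀ j < k, h (f (j + 1)) ≤ h (f j) + 1 := fun j hj => by
      rcases hE _ _ (lt_of_le_of_lt (Nat.zero_le _) (hf.2 j hj)) with h2 | h2
      · rw [abs_lt] at h2; linarith [h2.1]
      · rcases h2.diff hc.1 with h3 | h3 <;> linarith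
    have hup : ∀ i j, i + j ≤ k → h (f (i + j)) ≤ h (f i) + j := by
      intro i j
      induction j with
      | zero => intro _; simp
      | succ j ih =>
        intro hj
        have := ih (by omega)
        have h2 := hstep (i + j) (by omega)
        push_cast; rw [← add_assoc]; linarith
    have e0 : h (f 0) = 0 := by rw [h0, hc.1 0 (by omega)]; simp
    have eL : h (f k) = L := by rw [h1, hc.1 L le_rfl]
    have hLk : L ≤ k := by
      have := hup 0 k (by omega)
      rw [zero_add, e0, eL, zero_add] at this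
      exact_mod_cast this
    refine ⟨hLk, fun hk => ?_⟩
    subst hk
    have hval : ∀ j ≤ k, h (f j) = j := fun j hj => by
      have h2 := hup 0 j (by omega)
      have h3 := hup j (k - j) (by omega)
      rw [zero_add, e0] at h2
      rw [show j + (k - j) = k by omega, eL, Nat.cast_sub hj] at h3
      linarith
    have hfp : ∀ j ≤ k, f j = p j := by
      intro j hj
      cases j with
      | zero => exact h0
      | succ j =>
        have a1 := hval j (by omega)
        have a2 := hval (j + 1) hj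
        rcases hE _ _ (lt_of_le_of_lt (Nat.zero_le _) (hf.2 j hj)) with h2 | ⟨t, ht, h2 | h2⟩
        · rw [a1, a2] at h2; push_cast at h2; simp at h2
        · rw [h2.1, hc.1 t ht.le] at a1
          have : t = j := by exact_mod_cast a1
          rw [h2.2, this]
        · rw [h2.1, hc.1 t ht.le] at a2
          have : t = j + 1 := by exact_mod_cast a2
          rw [h2.1, this]
    refine ⟨hfp, fun j hj => ?_⟩
    have := hf.2 j hj
    rw [hfp j hj.le, hfp (j + 1) hj, hpe j hj] at this
    show e j = 0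
    omega
  · rintro _ ⟨k, f, e, hf, rfl⟩
    by_cases hk : k = 0
    · omega
    have hcon : ∀ j < k, Con L p (f j) (f (j + 1)) := fun j hj => by
      have := mult_one hf hj
      rw [hF] at this
      by_contra h1
      rw [if_neg h1] at this; omega
    have hxne : ∀ {s t : Fin (n + 1)}, Con L p s t → ∃ i ≤ L, p i = s := by
      rintro s t ⟨i, hi, ⟨h1, _⟩ | ⟨_, h1⟩⟩
      · exact ⟨i, hi.le, h1.symm⟩
      · exact ⟨i + 1, hi, h1.symm⟩
    have hsub : (range (k + 1)).image f ⊆ (range (L + 1)).image p := by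
      intro v hv
      simp only [mem_image, mem_range] at hv ⊢
      obtain ⟨j, hj, rfl⟩ := hv
      by_cases h1 : j < k
      · obtain ⟨i, hi, h2⟩ := hxne (hcon j h1)
        exact ⟨i, by omega, h2⟩
      · obtain ⟨i, hi, h2⟩ := hxne (hcon (k - 1) (by omega)).symm
        exact ⟨i, by omega, by rw [h2]; congr 1; omega⟩
    have h1 := Finset.card_le_card hsub
    rw [Finset.card_image_of_injOn (fun i hi j hj hij =>
      hf.1.1 i (by simp at hi; omega) j (by simp at hj; omega) hij)] at h1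
    have h2 := Finset.card_image_le (s := range (L + 1)) (f := p)
    simp only [card_range] at h1 h2
    omega

theorem result (n : ℕ) (G : MG n) (i : ℕ) (h1 : sf G ≤ i) (h2 : i ≤ sp G) :
    ∃ F : MG n, (∀ a b, G.μ a b ≤ F.μ a b) ∧ sp F = i := by
  obtain ⟨H, hH, hs⟩ := Nat.sInf_mem (s := {s | ∃ H : Σ m, MG m, IsMinor ⟨n, G⟩ H ∧ s = sp H.2})
    ⟨_, ⟨n, G⟩, Relation.ReflTransGen.refl, rfl⟩
  have hinv : ∀ K : Σ m, MG m, Relation.ReflTransGen Step H K → Inv (sp H.2) K := by
    intro K hK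
    induction hK with
    | refl =>
      obtain ⟨k, f, e, hu, hk⟩ := usp_mem H.2
      exact ⟨k, cert_of_usp hu, by unfold sp; omega⟩
    | tail _ hs ih => exact inv_step hs ih
  obtain ⟨L, hc, hl⟩ := hinv _ hH
  obtain ⟨k, f, e, _, hk⟩ := usp_mem G
  have h3 : i ≤ n := by unfold sp at h2; omega
  have h4 : sp H.2 ≤ i := by rw [← hs]; exact h1
  simp only at hl
  obtain ⟨F, hF, hu⟩ := super_of_cert (cert_mono hc (show n - i ≤ L by omega))
  exact ⟨F, hF, by unfold sp; omega⟩

end Pool.Agent.Results.MP_aba9fe_co.Spectator
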